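import Pool.Agent.Lib.MP_4b56aa_gt.Red.RCross

namespace Pool.Agent.Lib.MP_4b56aa_gt.Red

open Set

theorem dist_sq (a b : ℂ) : dist a b ^ 2 = (a.re - b.re) ^ 2 + (a.im - b.im) ^ 2 := by
  rw [Complex.dist_eq, Complex.sq_norm, Complex.normSq_apply]
  simp only [Complex.sub_re, Complex.sub_im]
  ring

theorem seg_coord {x y z : ℂ} (h : z ∈ segment ℝ x y) : ∃ s : ℝ, 0 ≤ s ∧ s ≤ 1 ∧
    z.re = (1 - s) * x.re + s * y.re ∧ z.im = (1 - s) * x.im + s * y.im := by
  obtain ⟨a, b, ha, hb, hab, rfl⟩ := h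
  obtain rfl : a = 1 - b := by linarith
  exact ⟨b, hb, by linarith, by simp, by simp⟩

/-- Of two meeting segments one has an end in the disc whose diameter is the other. -/
theorem four_point {x y z w u : ℂ} (h1 : u ∈ segment ℝ x y) (h2 : u ∈ segment ℝ z w)
    (a : 0 < dot (z - x) (z - y)) (b : 0 < dot (w - x) (w - y)) (c : 0 < dot (x - z) (x - w))
    (d : 0 < dot (y - z) (y - w)) : False := by
  obtain ⟨s, s0, s1, e1, e2⟩ := seg_coord h1
  obtain ⟨t, t0, t1, e3, e4⟩ := seg_coord h2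
  have key : (1 - t) * dot (z - x) (z - y) + t * dot (w - x) (w - y) +
      ((1 - s) * dot (x - z) (x - w) + s * dot (y - z) (y - w)) = 0 := by
    simp only [dot, Complex.sub_re, Complex.sub_im]
    linear_combination (x.re + y.re - z.re - w.re) * (e3 - e1) +
      (x.im + y.im - z.im - w.im) * (e4 - e2)
  have p1 : 0 < (1 - t) * dot (z - x) (z - y) + t * dot (w - x) (w - y) := by
    rcases t0.eq_or_lt with h | h
    · rw [← h]; linarith
    · nlinarith [mul_pos h b, mul_nonneg (sub_nonneg.2 t1) a.le]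
  nlinarith [mul_nonneg s0 d.le, mul_nonneg (sub_nonneg.2 s1) c.le]

theorem disc_sq (x y z : ℂ) :
    dist z x ^ 2 + dist z y ^ 2 = dist x y ^ 2 + 2 * dot (z - x) (z - y) := by
  simp only [dist_sq, dot, Complex.sub_re, Complex.sub_im]
  ring

theorem dot_pos_of {x y z : ℂ} (hy : z ≠ y) (h : dist x y ≤ dist z x) :
    0 < dot (z - x) (z - y) := by
  have := disc_sq x y z
  have p : 0 < dist z y := dist_pos.2 hy
  nlinarith [dist_nonneg (x := x) (y := y)]

theorem dot_comm (a b : ℂ) : dot a b = dot b a := by unfold dot; ring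

theorem Gab.dot_pos {E : Finset (ℂ × ℂ)} {V : Finset ℂ} (h : Gab E V) {x y z : ℂ}
    (he : x = y ∨ (x, y) ∈ E) (hz : z ∈ V) (hx : z ≠ x) (hy : z ≠ y) :
    0 < dot (z - x) (z - y) := by
  rcases he with rfl | he
  · exact dot_pos_of hy (by simp)
  · rcases not_and_or.1 (h _ he z hz hx hy) with k | k
    · exact dot_pos_of hy (not_lt.1 k)
    · rw [dot_comm]
      exact dot_pos_of hx (by rw [dist_comm y x]; exact not_lt.1 k)

/-- The union of the points of `W` and of the edges between them. -/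
def real (E : Finset (ℂ × ℂ)) (W : Finset ℂ) : Set ℂ :=
  {z | ∃ x ∈ W, ∃ y ∈ W, (x = y ∨ (x, y) ∈ E) ∧ z ∈ segment ℝ x y}

theorem Conn.joined {E : Finset (ℂ × ℂ)} {W : Finset ℂ} (h : Conn E W) {a b : ℂ} (ha : a ∈ W)
    (hb : b ∈ W) : JoinedIn (real E W) a b := by
  have key : ∀ a b, Relation.EqvGen (fun u v : ℂ => (u, v) ∈ E ∧ u ∈ W ∧ v ∈ W) a b →
      (a ∈ real E W → JoinedIn (real E W) a b) ∧ (b ∈ real E W → JoinedIn (real E W) b a) := by
    intro a b h
    induction h with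
    | rel u v h =>
      have : JoinedIn (real E W) u v :=
        JoinedIn.of_segment_subset fun z hz => ⟨u, h.2.1, v, h.2.2, Or.inr h.1, hz⟩
      exact ⟨fun _ => this, fun _ => this.symm⟩
    | refl => exact ⟨fun k => JoinedIn.refl k, fun k => JoinedIn.refl k⟩
    | symm _ _ _ ih => exact ih.symm
    | trans _ _ _ _ _ ih1 ih2 =>
      exact ⟨fun k => (ih1.1 k).trans (ih2.1 (ih1.1 k).target_mem),
        fun k => (ih2.2 k).trans (ih1.2 (ih2.2 k).target_mem)⟩
  exact (key a b (h a ha b hb)).1 ⟨a, ha, a, ha, Or.inl rfl, left_mem_segment ℝ a a⟩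

theorem dot_seg {x y z ν : ℂ} {h : ℝ} (hz : z ∈ segment ℝ x y) (hx : dot x ν < h)
    (hy : dot y ν ≤ h) (hh : h ≤ dot z ν) : z = y := by
  obtain ⟨s, s0, s1, e1, e2⟩ := seg_coord hz
  have e : dot z ν = (1 - s) * dot x ν + s * dot y ν := by
    simp only [dot, e1, e2]; ring
  have : s = 1 := by nlinarith
  subst this
  apply Complex.ext <;> simp [e1, e2]

/-- Points of two legs ending at nearest points of the net. -/
theorem leg_leg {p p' q q' u : ℂ} (h1 : u ∈ segment ℝ p q) (h2 : u ∈ segment ℝ p' q')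
    (n1 : dist q p ≤ dist q p') (n2 : dist q' p' ≤ dist q' p) (hp : p ≠ p') : q = q' := by
  obtain ⟨s, s0, s1, e1, e2⟩ := seg_coord h1
  obtain ⟨t, t0, t1, e3, e4⟩ := seg_coord h2
  have m1 := pow_le_pow_left₀ dist_nonneg n1 2
  have m2 := pow_le_pow_left₀ dist_nonneg n2 2
  have d : 0 < dist p p' ^ 2 := pow_pos (dist_pos.2 hp) 2
  have k1 : dist u p' ^ 2 - dist u p ^ 2 =
      (1 - s) * dist p p' ^ 2 + s * (dist q p' ^ 2 - dist q p ^ 2) := by
    simp only [dist_sq, e1, e2]; ring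
  have k2 : dist u p ^ 2 - dist u p' ^ 2 =
      (1 - t) * dist p p' ^ 2 + t * (dist q' p ^ 2 - dist q' p' ^ 2) := by
    simp only [dist_sq, e3, e4]; ring
  have a1 := mul_nonneg s0 (sub_nonneg.2 m1)
  have a2 := mul_nonneg t0 (sub_nonneg.2 m2)
  have a3 := mul_nonneg (sub_nonneg.2 s1) d.le
  have a4 := mul_nonneg (sub_nonneg.2 t1) d.le
  have hs : s = 1 := by
    have : (1 - s) * dist p p' ^ 2 = 0 := by linarith
    rcases mul_eq_zero.1 this with h | h <;> linarith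
  have ht : t = 1 := by
    have : (1 - t) * dist p p' ^ 2 = 0 := by linarith
    rcases mul_eq_zero.1 this with h | h <;> linarith
  subst hs ht
  apply Complex.ext <;> linarith

/-- Nearest points of a short net with the lens property are in planar cyclic order. -/
theorem planar {E : Finset (ℂ × ℂ)} {V : Finset ℂ} {δ T : ℝ} {n : ℕ} {P Q ν : ℕ → ℂ} {α : ℕ → ℝ}
    (hG : Gab E V) (hE : ∀ e ∈ E, dist e.1 e.2 ≤ δ) (hδ : 0 ≤ δ) (hT : 0 < T) (hα : StrictMono α)
    (hαn : α n = α 0 + 2 * Real.pi) (hP : ∀ i, P i ∈ V)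
    (near : ∀ i, ∀ x ∈ V, dist (Q i) (P i) ≤ dist (Q i) x) (far : ∀ i, ∀ x ∈ V, δ < dist (Q i) x)
    (ray : ∀ i, ∀ z ∈ segment ℝ (Q i) (T * nv (α i)), dot (Q i) (ν i) ≤ dot z (ν i))
    (sV : ∀ i, ∀ x ∈ V, dot x (ν i) < dot (Q i) (ν i))
    (sQ : ∀ i j, dot (Q j) (ν i) ≤ dot (Q i) (ν i))
    (rr : ∀ i j, i < n → j < n → i ≠ j → ∀ z ∈ segment ℝ (Q i) (T * nv (α i)),
      z ∉ segment ℝ (Q j) (T * nv (α j)))
    (bV : ∀ x ∈ V, ‖x‖ ≤ T) (bQ : ∀ i, ‖Q i‖ ≤ T) : Planar P E V (P 0) 1 n := by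
  intro W1 W2 hd hW k1 k2 h0 a b c ha hab hbc hc pa pc
  by_contra pb
  have pb2 : P b ∈ W2 := ((hW _).1 (hP b)).resolve_left pb
  have v1 : ∀ x ∈ W1, x ∈ V := fun x hx => (hW x).2 (Or.inl hx)
  have v2 : ∀ x ∈ W2, x ∈ V := fun x hx => (hW x).2 (Or.inr hx)
  have ne : ∀ x ∈ W1, ∀ y ∈ W2, x ≠ y := fun x hx y hy h =>
    Finset.disjoint_left.1 hd hx (h ▸ hy)
  let arm : ℕ → Set ℂ := fun i => segment ℝ (P i) (Q i) ∪ segment ℝ (Q i) (T * nv (α i))
  have seg : ∀ {x y : ℂ}, ‖x‖ ≤ T → ‖y‖ ≤ T → ∀ z ∈ segment ℝ x y, ‖z‖ ≤ T := fun hx hy z hz =>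
    mem_closedBall_zero_iff.1 ((convex_closedBall (0 : ℂ) T).segment_subset
      (mem_closedBall_zero_iff.2 hx) (mem_closedBall_zero_iff.2 hy) hz)
  have bF : ∀ i, ‖(T : ℂ) * nv (α i)‖ ≤ T := fun i => by
    rw [norm_mul, norm_nv, mul_one, Complex.norm_real, Real.norm_of_nonneg hT.le]
  have barm : ∀ i, ∀ z ∈ arm i, ‖z‖ ≤ T := fun i z hz =>
    hz.elim (seg (bV _ (hP i)) (bQ i) z) (seg (bQ i) (bF i) z)
  have breal : ∀ W : Finset ℂ, (∀ x ∈ W, x ∈ V) → ∀ z ∈ real E W, ‖z‖ ≤ T := by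
    rintro W hv z ⟨x, hx, y, hy, -, hz⟩
    exact seg (bV _ (hv x hx)) (bV _ (hv y hy)) z hz
  have jarm : ∀ i, JoinedIn (arm i) (P i) (T * nv (α i)) := fun i =>
    (JoinedIn.of_segment_subset subset_union_left).trans
      (JoinedIn.of_segment_subset subset_union_right)
  have join : ∀ (W : Finset ℂ) i j, Conn E W → P i ∈ W → P j ∈ W →
      JoinedIn (real E W ∪ (arm i ∪ arm j)) (T * nv (α i)) (T * nv (α j)) := fun W i j k hi hj =>
    (((jarm i).symm.mono (subset_union_left.trans subset_union_right)).trans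
      ((k.joined hi hj).mono subset_union_left)).trans
      ((jarm j).mono (subset_union_right.trans subset_union_right))
  have ra : ∀ (W : Finset ℂ) i, (∀ x ∈ W, x ∈ V) → (∀ x ∈ W, P i ≠ x) →
      ∀ z ∈ real E W, z ∉ arm i := by
    rintro W i hv hn z ⟨x, hx, y, hy, he, hz⟩ (h | h)
    · have l : dist x y ≤ δ := by
        rcases he with rfl | he
        · simpa using hδ
        · exact hE _ he
      have f : ∀ x ∈ W, 0 < dot (x - P i) (x - Q i) := fun x hx => by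
        rw [dot_comm]
        exact dot_pos_of (hn x hx).symm (by rw [dist_comm x]; exact near i x (hv x hx))
      refine four_point hz h (hG.dot_pos he (hP i) (hn x hx) (hn y hy))
        (dot_pos_of ?_ (l.trans (far i x (hv x hx)).le)) (f x hx) (f y hy)
      exact dist_pos.1 (hδ.trans_lt (far i y (hv y hy)))
    · have e := dot_seg hz (sV i x (hv x hx)) (sV i y (hv y hy)).le (ray i z h)
      have := ray i z h
      rw [e] at this
      exact absurd (sV i y (hv y hy)) (not_lt.2 this)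
  have lr : ∀ i j, i < n → j < n → i ≠ j → ∀ z ∈ segment ℝ (P j) (Q j),
      z ∉ segment ℝ (Q i) (T * nv (α i)) := fun i j hi hj hij z h1 h2 => by
    have e := dot_seg h1 (sV i _ (hP j)) (sQ i j) (ray i z h2)
    exact rr i j hi hj hij z h2 (e ▸ left_mem_segment ℝ _ _)
  have aa : ∀ i j, i < n → j < n → P i ≠ P j → ∀ z ∈ arm i, z ∉ arm j := by
    intro i j hi hj hp z
    have hij : i ≠ j := fun h => hp (h ▸ rfl)
    rintro (h1 | h1) (h2 | h2)
    · have e := leg_leg h1 h2 (near i _ (hP j)) (near j _ (hP i)) hp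
      exact rr i j hi hj hij (Q i) (left_mem_segment ℝ _ _) (e ▸ left_mem_segment ℝ _ _)
    · exact lr j i hj hi hij.symm z h1 h2
    · exact lr i j hi hj hij z h2 h1
    · exact rr i j hi hj hij z h1 h2
  refine cross_disc hT (hα (show 0 < a by omega)) (hα hab) (hα hbc) (hαn ▸ hα hc)
    (A := real E W2 ∪ (arm 0 ∪ arm b)) (B := real E W1 ∪ (arm a ∪ arm c)) ?_ ?_ ?_
    (join W2 0 b k2 h0 pb2) (join W1 a c k1 pa pc)
  · rintro z (h | h | h)
    exacts [breal W2 v2 z h, barm _ z h, barm _ z h]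
  · rintro z (h | h | h)
    exacts [breal W1 v1 z h, barm _ z h, barm _ z h]
  · rw [Set.disjoint_left]
    rintro z (h | h | h) (h' | h' | h')
    · obtain ⟨x, hx, y, hy, he, hz⟩ := h
      obtain ⟨x', hx', y', hy', he', hz'⟩ := h'
      exact four_point hz hz' (hG.dot_pos he (v1 _ hx') (ne _ hx' _ hx) (ne _ hx' _ hy))
        (hG.dot_pos he (v1 _ hy') (ne _ hy' _ hx) (ne _ hy' _ hy))
        (hG.dot_pos he' (v2 _ hx) (ne _ hx' _ hx).symm (ne _ hy' _ hx).symm)
        (hG.dot_pos he' (v2 _ hy) (ne _ hx' _ hy).symm (ne _ hy' _ hy).symm)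
    · exact ra W2 a v2 (ne _ pa) z h h'
    · exact ra W2 c v2 (ne _ pc) z h h'
    · exact ra W1 0 v1 (fun x hx => (ne x hx _ h0).symm) z h' h
    · exact aa 0 a (by omega) (by omega) (ne _ pa _ h0).symm z h h'
    · exact aa 0 c (by omega) hc (ne _ pc _ h0).symm z h h'
    · exact ra W1 b v1 (fun x hx => (ne x hx _ pb2).symm) z h' h
    · exact aa b a (by omega) (by omega) (ne _ pa _ pb2).symm z h h'
    · exact aa b c (by omega) hc (ne _ pc _ pb2).symm z h h'

end Pool.Agent.Lib.MP_4b56aa_gt.Red
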