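import Pool.Agent.Lib.MP_4b56aa_gt.Red.RPeel
import Pool.Agent.Lib.MP_4b56aa_gt.Red.RPlan

namespace Pool.Agent.Lib.MP_4b56aa_gt.Red

open Set MeasureTheory

theorem seg_ray {a b α : ℝ} {z : ℂ} (hab : a ≤ b)
    (hz : z ∈ segment ℝ ((a : ℂ) * nv α) ((b : ℂ) * nv α)) : ∃ c : ℝ, a ≤ c ∧ z = c * nv α := by
  obtain ⟨s, s0, s1, e1, e2⟩ := seg_coord hz
  refine ⟨(1 - s) * a + s * b, by nlinarith, ?_⟩
  apply Complex.ext
  · rw [e1]; simp only [Complex.re_ofReal_mul]; ring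
  · rw [e2]; simp only [Complex.im_ofReal_mul]; ring

theorem dot_ofReal_mul (c : ℝ) (a b : ℂ) : dot (c * a) b = c * dot a b := by
  simp only [dot, Complex.re_ofReal_mul, Complex.im_ofReal_mul]; ring

theorem nv_ne {a b c d : ℝ} (hc : 0 < c) (hd : 0 < d) (h1 : a < b) (h2 : b < a + 2 * Real.pi) :
    (c : ℂ) * nv a ≠ d * nv b := by
  intro h
  have e : c = d := by
    have := congrArg norm h
    simpa [norm_nv, abs_of_pos hc, abs_of_pos hd] using this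
  subst e
  have e2 := mul_left_cancel₀ (Complex.ofReal_ne_zero.2 hc.ne') h
  have r := congrArg Complex.re e2
  have i := congrArg Complex.im e2
  simp only [nv_re, nv_im] at r i
  have : Real.cos (b - a) = 1 := by
    rw [Real.cos_sub, ← r, ← i]; nlinarith [Real.sin_sq_add_cos_sq a]
  have := (Real.cos_eq_one_iff_of_lt_of_lt (by linarith [Real.pi_pos]) (by linarith)).1 this
  linarith

/-- A continuum that comes within `r` of points listed counterclockwise on the boundary of a convex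
set containing it is at least as long as some interval tree on nearby terminals. -/
theorem reduction {S : Set ℂ} (hS : IsCompact S) (hc : IsConnected S) (hfin : μH[1] S ≠ ⊤)
    {n : ℕ} (hn : 2 ≤ n) {q : ℕ → ℂ} {ψ : ℕ → ℝ} {h0 M r : ℝ} (hh : 0 < h0)
    (hq : ∀ i, q (i + n) = q i) (hψ : ∀ i, ψ (i + n) = ψ i + 2 * Real.pi)
    (hmono : ∀ i, ψ i ≤ ψ (i + 1))
    (hpos : ∀ i, h0 ≤ dot (q i) (nv (ψ i))) (hM : ∀ i, ‖q i‖ ≤ M)
    (hsS : ∀ i, ∀ x ∈ S, dot x (nv (ψ i)) ≤ dot (q i) (nv (ψ i)))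
    (hsq : ∀ i j, dot (q j) (nv (ψ i)) ≤ dot (q i) (nv (ψ i)))
    (hcr : ∀ i, 0 < (q i).re * (q (i + 1)).im - (q i).im * (q (i + 1)).re)
    (hcov : ∀ i, ∃ y ∈ S, dist y (q i) ≤ r) (Z : Finset ℂ) (hZ : ↑Z ⊆ S) {ε : ℝ} (hε : 0 < ε) :
    ∃ P : ℕ → ℂ, (∀ i, P (i + n) = P i) ∧ (∀ i, P i ∈ S ∧ dist (P i) (q i) ≤ r + ε) ∧
      ∃ (c : ℝ) (X : Set ℂ), IT P 1 n (P 0) c X ∧ ↑Z ⊆ X ∧ c ≤ (μH[1] S).toReal + ε := by
  classical
  obtain ⟨α, hα1, hα2, hα3⟩ := polar hq hψ hmono (fun i => hh.trans_le (hpos i)) hcr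
  have M0 : 0 < M := (hα1 0).1.trans_le (hM 0)
  set η := ε / (2 * M) with hη
  have η0 : 0 < η := by positivity
  have ηM : η * M = ε / 2 := by rw [hη]; field_simp
  have per : ∀ i, ∃ j < n, q i = q j := fun i => by
    induction i using Nat.strong_induction_on with
    | _ i ih =>
      by_cases h : i < n
      · exact ⟨i, h, rfl⟩
      · obtain ⟨j, hj, e⟩ := ih (i - n) (by omega)
        exact ⟨j, hj, by rw [← e, ← hq (i - n)]; congr 1; omega⟩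
  choose y hy1 hy2 using hcov
  obtain ⟨V, E0, a1, a2, a3, a4, a5⟩ := exists_net hS hc hfin (Z ∪ (Finset.range n).image y)
    (by
      rw [Finset.coe_union]
      refine union_subset hZ fun x hx => ?_
      obtain ⟨i, -, rfl⟩ := Finset.mem_image.1 (Finset.mem_coe.1 hx)
      exact hy1 i) (half_pos (mul_pos η0 hh)) hε
  obtain ⟨E, b1, b2, b3, b4⟩ := exists_gab a3 a4
  have yV : ∀ j < n, y j ∈ V := fun j hj =>
    a1 (Finset.mem_union_right _ (Finset.mem_image_of_mem _ (Finset.mem_range.2 hj)))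
  have nr : ∀ z : ℂ, ∃ p ∈ V, ∀ x ∈ V, dist z p ≤ dist z x := fun z =>
    V.exists_min_image (fun x => dist z x) ⟨_, yV 0 (by omega)⟩
  choose f hf1 hf2 using nr
  obtain ⟨T0, hT0⟩ := hS.isBounded.exists_norm_le
  let Q : ℕ → ℂ := fun i => ((1 + η : ℝ) : ℂ) * q i
  have Qe : ∀ i, Q i = (((1 + η) * ‖q i‖ : ℝ) : ℂ) * nv (α i) := fun i => by
    show ((1 + η : ℝ) : ℂ) * q i = _
    conv_lhs => rw [(hα1 i).2]
    push_cast; ring
  have Qd : ∀ i j, dot (Q j) (nv (ψ i)) = (1 + η) * dot (q j) (nv (ψ i)) := fun i j =>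
    dot_ofReal_mul _ _ _
  have Qp : ∀ i, dist (Q i) (q i) ≤ ε / 2 := fun i => by
    rw [dist_eq_norm, show Q i - q i = (η : ℂ) * q i by simp only [Q]; push_cast; ring, norm_mul,
      Complex.norm_real, Real.norm_of_nonneg η0.le, ← ηM]
    exact mul_le_mul_of_nonneg_left (hM i) η0.le
  set T := max T0 ((1 + η) * M) with hT
  have QT : ∀ i, (1 + η) * ‖q i‖ ≤ T := fun i =>
    (mul_le_mul_of_nonneg_left (hM i) (by linarith)).trans (le_max_right _ _)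
  have Q0 : ∀ i, 0 < (1 + η) * ‖q i‖ := fun i => mul_pos (by linarith) (hα1 i).1
  have sV : ∀ i, ∀ x ∈ V, dot x (nv (ψ i)) + η * h0 ≤ dot (Q i) (nv (ψ i)) := fun i x hx => by
    rw [Qd]
    nlinarith [hsS i x (a2 hx), hpos i]
  have rr : ∀ i j, i < j → j < n → ∀ z ∈ segment ℝ (Q i) (T * nv (α i)),
      z ∉ segment ℝ (Q j) (T * nv (α j)) := fun i j hij hj z h1 h2 => by
    rw [Qe] at h1 h2
    obtain ⟨c, c1, c2⟩ := seg_ray (QT i) h1
    obtain ⟨d, d1, d2⟩ := seg_ray (QT j) h2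
    exact nv_ne ((Q0 i).trans_le c1) ((Q0 j).trans_le d1) (hα2 hij)
      (by linarith [hα2 hj, hα2.monotone (Nat.zero_le i)]) (c2.symm.trans d2)
  have pl : Planar (fun i => f (Q i)) E V (f (Q 0)) 1 n := by
    refine planar (Q := Q) (ν := fun i => nv (ψ i)) (α := α) (T := T) b4
      (fun e he => (b2 e he).2.2) (half_pos (mul_pos η0 hh)).le ((Q0 0).trans_le (QT 0)) hα2 hα3
      (fun i => hf1 _) (fun i => hf2 _) (fun i x hx => ?_) (fun i z hz => ?_)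
      (fun i x hx => by linarith [sV i x hx, mul_pos η0 hh]) (fun i j => ?_)
      (fun i j hi hj hij z h1 h2 => ?_) (fun x hx => (hT0 x (a2 hx)).trans (le_max_left _ _))
      fun i => ?_
    · have := dot_le (Q i - x) (nv (ψ i))
      rw [norm_nv, mul_one, ← dist_eq_norm] at this
      have e : dot (Q i - x) (nv (ψ i)) = dot (Q i) (nv (ψ i)) - dot x (nv (ψ i)) := by
        simp only [dot, Complex.sub_re, Complex.sub_im]; ring
      linarith [sV i x hx, mul_pos η0 hh]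
    · rw [Qe] at hz
      obtain ⟨c, c1, rfl⟩ := seg_ray (QT i) hz
      have p : 0 < ‖q i‖ * dot (nv (α i)) (nv (ψ i)) := by
        rw [← dot_ofReal_mul, ← (hα1 i).2]; exact hh.trans_le (hpos i)
      rw [Qe, dot_ofReal_mul, dot_ofReal_mul]
      exact mul_le_mul_of_nonneg_right c1 ((mul_pos_iff_of_pos_left (hα1 i).1).1 p).le
    · rw [Qd, Qd]
      exact mul_le_mul_of_nonneg_left (hsq i j) (by linarith)
    · rcases lt_or_gt_of_ne hij with h | h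
      · exact rr i j h hj z h1 h2
      · exact rr j i h hi z h2 h1
    · rw [Qe, norm_mul, norm_nv, mul_one, Complex.norm_real, Real.norm_of_nonneg (Q0 i).le]
      exact QT i
  obtain ⟨c, X, k1, k2, k3⟩ := peel b1 (hf1 _) (by omega) (fun i => hf1 _) pl
  refine ⟨fun i => f (Q i), fun i => by simp only [Q, hq], fun i => ⟨a2 (hf1 _), ?_⟩, c, X, k1,
    fun z hz => k2 (a1 (Finset.mem_union_left _ hz)), by linarith⟩
  obtain ⟨j, hj, e⟩ := per i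
  have t1 := hf2 (Q i) (y j) (yV j hj)
  have t2 := dist_triangle_left (f (Q i)) (q i) (Q i)
  have t3 := dist_triangle_right (Q i) (y j) (q i)
  have t4 := hy2 j
  rw [← e] at t4
  linarith [Qp i]

/-- The same with the root at a central triangle for a weight `μ` of total mass `2 H`. -/
theorem reduction3 {S : Set ℂ} (hS : IsCompact S) (hc : IsConnected S) (hfin : μH[1] S ≠ ⊤)
    {n : ℕ} (hn : 2 ≤ n) {q : ℕ → ℂ} {ψ : ℕ → ℝ} {h0 M r : ℝ} (hh : 0 < h0)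
    (hq : ∀ i, q (i + n) = q i) (hψ : ∀ i, ψ (i + n) = ψ i + 2 * Real.pi)
    (hmono : ∀ i, ψ i ≤ ψ (i + 1))
    (hpos : ∀ i, h0 ≤ dot (q i) (nv (ψ i))) (hM : ∀ i, ‖q i‖ ≤ M)
    (hsS : ∀ i, ∀ x ∈ S, dot x (nv (ψ i)) ≤ dot (q i) (nv (ψ i)))
    (hsq : ∀ i j, dot (q j) (nv (ψ i)) ≤ dot (q i) (nv (ψ i)))
    (hcr : ∀ i, 0 < (q i).re * (q (i + 1)).im - (q i).im * (q (i + 1)).re)
    (hcov : ∀ i, ∃ y ∈ S, dist y (q i) ≤ r) (Z : Finset ℂ) (hZ : ↑Z ⊆ S) {ε : ℝ} (hε : 0 < ε)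
    (μ : ℕ → ℝ) (H : ℝ) (hμ : ∀ i, μ (i + n) = μ i + 2 * H) (hstep : ∀ i, μ (i + 1) < μ i + H) :
    ∃ P : ℕ → ℂ, (∀ i, P (i + n) = P i) ∧ (∀ i, P i ∈ S ∧ dist (P i) (q i) ≤ r + ε) ∧
      ∃ (a b e : ℕ) (y : ℂ) (c1 c2 c3 : ℝ) (X1 X2 X3 : Set ℂ), 1 ≤ a ∧ e ≤ n ∧
        IT P a b y c1 X1 ∧ IT P b e y c2 X2 ∧ IT P e (a + n) y c3 X3 ∧
        μ b - μ a ≤ H ∧ μ e - μ b ≤ H ∧ μ (a + n) - μ e < H ∧
        c1 + c2 + c3 ≤ (μH[1] S).toReal + ε ∧ ↑Z ⊆ X1 ∪ X2 ∪ X3 := by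
  obtain ⟨P, h1, h2, c, X, h3, h4, h5⟩ :=
    reduction hS hc hfin hn hh hq hψ hmono hpos hM hsS hsq hcr hcov Z hZ hε
  have l := IT.leaf (P := P) n
  have e0 := h1 0
  rw [zero_add] at e0
  rw [e0, add_comm n 1] at l
  have m0 := hμ 0
  rw [zero_add] at m0
  obtain ⟨a, b, e, y, c1, c2, c3, X1, X2, X3, p1, p2, p3, p4, p5, p6, p7, p8, p9, p10⟩ :=
    central h1 μ H hμ (fun i => (hstep i).le) h3 _ _ l (by linarith [hstep 0])
  exact ⟨P, h1, h2, a, b, e, y, c1, c2, c3, X1, X2, X3, p1, p2, p3, p4, p5, p6, p7, p8,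
    by linarith, p10 ▸ h4.trans subset_union_left⟩

end Pool.Agent.Lib.MP_4b56aa_gt.Red
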