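import Pool.Agent.Lib.MP_4b56aa_gt.Red.RDefs

namespace Pool.Agent.Lib.MP_4b56aa_gt.Red

open Set

variable {P : ℕ → ℂ}

theorem dot_le (a b : ℂ) : dot a b ≤ ‖a‖ * ‖b‖ := by
  have h := real_inner_le_norm a b
  rw [Complex.inner] at h
  simp only [Complex.mul_re, Complex.conj_re, Complex.conj_im] at h
  unfold dot
  linarith

theorem IT.lt {s t : ℕ} {x : ℂ} {c : ℝ} {X : Set ℂ} (h : IT P s t x c X) : s < t := by
  induction h with
  | leaf s => omega
  | move _ _ ih => exact ih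
  | join _ _ ih1 ih2 => omega
  | spur _ _ _ _ _ ih => exact ih

theorem IT.nonneg {s t : ℕ} {x : ℂ} {c : ℝ} {X : Set ℂ} (h : IT P s t x c X) : 0 ≤ c := by
  induction h with
  | leaf s => exact le_rfl
  | move _ _ ih => exact add_nonneg ih dist_nonneg
  | join _ _ ih1 ih2 => exact add_nonneg ih1 ih2
  | spur _ _ _ hd _ ih => exact add_nonneg ih hd

theorem IT.shift {n : ℕ} (hP : ∀ i, P (i + n) = P i) {s t : ℕ} {x : ℂ} {c : ℝ} {X : Set ℂ}
    (h : IT P s t x c X) : IT P (s + n) (t + n) x c X := by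
  induction h with
  | leaf s =>
    have := IT.leaf (P := P) (s + n)
    rw [hP, show s + n + 1 = s + 1 + n by omega] at this
    exact this
  | move y _ ih => exact ih.move y
  | join _ _ ih1 ih2 => exact ih1.join ih2
  | spur d Y _ hd hY ih => exact ih.spur d Y hd hY

/-- The value of the potentials `w` on the terminals of `[s, t)` seen from the root `x`. -/
noncomputable def val (P w : ℕ → ℂ) (s t : ℕ) (x : ℂ) : ℝ :=
  ∑ i ∈ Finset.Ico s t, dot (w i - w (i + 1)) (P i - x)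

theorem val_add (w : ℕ → ℂ) {s m t : ℕ} (h1 : s ≤ m) (h2 : m ≤ t) (x : ℂ) :
    val P w s t x = val P w s m x + val P w m t x :=
  (Finset.sum_Ico_consecutive _ h1 h2).symm

theorem val_move (w : ℕ → ℂ) {s t : ℕ} (h : s ≤ t) (x y : ℂ) :
    val P w s t y = val P w s t x + dot (w s - w t) (x - y) := by
  induction t, h using Nat.le_induction with
  | base => simp [val, dot]
  | succ t h ih =>
    unfold val at ih ⊢
    rw [Finset.sum_Ico_succ_top h, Finset.sum_Ico_succ_top h, ih]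
    simp only [dot, Complex.sub_re, Complex.sub_im]
    ring

/-- Clique bound with slack: potentials of diameter at most `1 - σ` bound every interval tree. -/
theorem IT.clique {s t : ℕ} {x : ℂ} {c : ℝ} {X : Set ℂ} (h : IT P s t x c X) (w : ℕ → ℂ) {σ : ℝ}
    (hσ : 0 ≤ σ) (hσ1 : σ ≤ 1)
    (hw : ∀ a b, s ≤ a → a < b → b ≤ t → ‖w a - w b‖ ≤ 1 - σ) :
    val P w s t x ≤ c ∧ ∀ z ∈ X, val P w s t x + σ * dist x z ≤ c := by
  induction h with
  | leaf s =>
    have : val P w s (s + 1) (P s) = 0 := by simp [val, dot]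
    refine ⟨this.le, fun z hz => ?_⟩
    rw [mem_singleton_iff.1 hz, this]; simp
  | @move s t x c X y h ih =>
    obtain ⟨i1, i2⟩ := ih hw
    have e := val_move (P := P) w h.lt.le x y
    have b := (dot_le (w s - w t) (x - y)).trans
      (mul_le_mul_of_nonneg_right (hw s t le_rfl h.lt le_rfl) (norm_nonneg _))
    rw [← dist_eq_norm] at b
    have d0 : 0 ≤ dist x y := dist_nonneg
    refine ⟨by nlinarith, fun z hz => ?_⟩
    have := i2 z hz
    have tr := dist_triangle_left y z x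
    nlinarith
  | @join s m t x c d X Y h1 h2 ih1 ih2 =>
    obtain ⟨i1, i2⟩ := ih1 fun a b ha hab hb => hw a b ha hab (hb.trans h2.lt.le)
    obtain ⟨j1, j2⟩ := ih2 fun a b ha hab hb => hw a b (h1.lt.le.trans ha) hab hb
    rw [val_add w h1.lt.le h2.lt.le]
    refine ⟨by linarith, fun z hz => ?_⟩
    rcases hz with hz | hz
    · linarith [i2 z hz]
    · linarith [j2 z hz]
  | @spur s t x c X d Y h hd hY ih =>
    obtain ⟨i1, i2⟩ := ih hw
    refine ⟨by linarith, fun z hz => ?_⟩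
    rcases hz with hz | hz
    · linarith [i2 z hz]
    · have := hY z hz
      have d0 : 0 ≤ dist x z := dist_nonneg
      nlinarith

/-- Moving the root to a central triangle. -/
theorem central {n : ℕ} (hP : ∀ i, P (i + n) = P i) (μ : ℕ → ℝ) (H : ℝ)
    (hμ : ∀ i, μ (i + n) = μ i + 2 * H) (hstep : ∀ i, μ (i + 1) ≤ μ i + H)
    {s t : ℕ} {x : ℂ} {c : ℝ} {X : Set ℂ} (h : IT P s t x c X) :
    ∀ (d : ℝ) (Y : Set ℂ), IT P t (s + n) x d Y → H < μ t - μ s →
      ∃ (a b e : ℕ) (y : ℂ) (c1 c2 c3 : ℝ) (X1 X2 X3 : Set ℂ), s ≤ a ∧ e ≤ t ∧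
        IT P a b y c1 X1 ∧ IT P b e y c2 X2 ∧ IT P e (a + n) y c3 X3 ∧
        μ b - μ a ≤ H ∧ μ e - μ b ≤ H ∧ μ (a + n) - μ e < H ∧
        c1 + c2 + c3 = c + d ∧ X ∪ Y = X1 ∪ X2 ∪ X3 := by
  induction h with
  | leaf s => intro d Y _ hb; linarith [hstep s]
  | @move s t x c X y h ih =>
    intro d Y h2 hb
    obtain ⟨a, b, e, z, c1, c2, c3, X1, X2, X3, p1, p2, p3, p4, p5, p6, p7, p8, p9, p10⟩ :=
      ih _ _ (h2.move x) hb
    refine ⟨a, b, e, z, c1, c2, c3, X1, X2, X3, p1, p2, p3, p4, p5, p6, p7, p8, ?_, p10⟩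
    rw [p9, dist_comm y x]; ring
  | @join s m t x c c' X X' h1 h1' ih1 ih2 =>
    intro d Y h2 hb
    by_cases k1 : H < μ m - μ s
    · obtain ⟨a, b, e, z, c1, c2, c3, X1, X2, X3, p1, p2, p3, p4, p5, p6, p7, p8, p9, p10⟩ :=
        ih1 _ _ (h1'.join h2) k1
      refine ⟨a, b, e, z, c1, c2, c3, X1, X2, X3, p1, p2.trans h1'.lt.le, p3, p4, p5, p6, p7, p8,
        by rw [p9]; ring, by rw [← p10, union_assoc]⟩
    · by_cases k2 : H < μ t - μ m
      · obtain ⟨a, b, e, z, c1, c2, c3, X1, X2, X3, p1, p2, p3, p4, p5, p6, p7, p8, p9, p10⟩ :=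
          ih2 _ _ (h2.join (h1.shift hP)) k2
        refine ⟨a, b, e, z, c1, c2, c3, X1, X2, X3, h1.lt.le.trans p1, p2, p3, p4, p5, p6, p7, p8,
          by rw [p9]; ring, ?_⟩
        rw [← p10]; ext z; simp only [mem_union]; tauto
      · exact ⟨s, m, t, x, c, c', d, X, X', Y, le_rfl, le_rfl, h1, h1', h2, not_lt.1 k1,
          not_lt.1 k2, by rw [hμ]; linarith, rfl, rfl⟩
  | @spur s t x c X d' Y' h hd hY ih =>
    intro d Y h2 hb
    obtain ⟨a, b, e, z, c1, c2, c3, X1, X2, X3, p1, p2, p3, p4, p5, p6, p7, p8, p9, p10⟩ :=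
      ih _ _ (h2.spur d' Y' hd hY) hb
    refine ⟨a, b, e, z, c1, c2, c3, X1, X2, X3, p1, p2, p3, p4, p5, p6, p7, p8,
      by rw [p9]; ring, ?_⟩
    rw [← p10]; ext z; simp only [mem_union]; tauto

end Pool.Agent.Lib.MP_4b56aa_gt.Red
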