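import Pool.Agent.Lib.MP_4b56aa_gt.Red.RTree

namespace Pool.Agent.Lib.MP_4b56aa_gt.Red

open Set

variable {P : ℕ → ℂ} {x : ℂ}

theorem BL.cast {J J' : Set ℕ} {c c' : ℝ} {X X' : Set ℂ} (h : BL P x J c X) (e1 : J = J')
    (e2 : c = c') (e3 : X = X') : BL P x J' c' X' := e1 ▸ e2 ▸ e3 ▸ h

theorem IT.cast {s t : ℕ} {c c' : ℝ} {X X' : Set ℂ} (h : IT P s t x c X)
    (e2 : c = c') (e3 : X = X') : IT P s t x c' X' := e2 ▸ e3 ▸ h

theorem BL.empty {J : Set ℕ} {c : ℝ} {X : Set ℂ} (h : BL P x J c X) (hJ : J = ∅) :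
    0 ≤ c ∧ ∀ z ∈ X, dist x z ≤ c := by
  induction h with
  | nil => simp
  | @blk J c X s t d Y _ h2 _ _ =>
    have : s ∈ J ∪ Ico s t := Or.inr ⟨le_rfl, h2.lt⟩
    rw [hJ] at this
    exact this.elim
  | spur d Y _ hd hY ih =>
    obtain ⟨i1, i2⟩ := ih hJ
    refine ⟨add_nonneg i1 hd, fun z hz => ?_⟩
    rcases hz with hz | hz
    · linarith [i2 z hz]
    · linarith [hY z hz]

theorem BL.extract {J : Set ℕ} {c : ℝ} {X : Set ℂ} (h : BL P x J c X) {i : ℕ} (hi : i ∈ J) :
    ∃ (s t : ℕ) (d c' : ℝ) (Y X' : Set ℂ), i ∈ Ico s t ∧ Ico s t ⊆ J ∧ IT P s t x d Y ∧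
      BL P x (J \ Ico s t) c' X' ∧ c = c' + d ∧ X = X' ∪ Y := by
  induction h with
  | nil => exact hi.elim
  | @blk J c X s t d Y h1 h2 hd ih =>
    rcases hi with hi | hi
    · obtain ⟨s', t', d', c', Y', X', p1, p2, p3, p4, p5, p6⟩ := ih hi
      refine ⟨s', t', d', c' + d, Y', X' ∪ Y, p1, p2.trans subset_union_left, p3,
        (p4.blk h2 (hd.mono_left sdiff_subset)).cast ?_ rfl rfl, by rw [p5]; ring, ?_⟩
      · ext k
        simp only [mem_union, mem_sdiff]
        have := fun hk : k ∈ Ico s' t' => Set.disjoint_left.1 hd (p2 hk)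
        tauto
      · rw [p6]; ext z; simp only [mem_union]; tauto
    · refine ⟨s, t, d, c, Y, X, hi, subset_union_right, h2, h1.cast ?_ rfl rfl, rfl, rfl⟩
      ext k
      simp only [mem_union, mem_sdiff]
      have := fun hk : k ∈ J => Set.disjoint_left.1 hd hk
      tauto
  | @spur J c X d Y _ hd hY ih =>
    obtain ⟨s', t', d', c', Y', X', p1, p2, p3, p4, p5, p6⟩ := ih hi
    refine ⟨s', t', d', c' + d, Y', X' ∪ Y, p1, p2, p3, p4.spur d Y hd hY, by rw [p5]; ring, ?_⟩
    rw [p6]; ext z; simp only [mem_union]; tauto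

theorem BL.merge : ∀ (k s t : ℕ) (c : ℝ) (X : Set ℂ), t - s ≤ k → s < t →
    BL P x (Ico s t) c X → IT P s t x c X := by
  intro k
  induction k with
  | zero => intro s t c X h1 h2; omega
  | succ k ih =>
    intro s t c X h1 h2 h
    obtain ⟨s', m, d, c', Y, X', p1, p2, p3, p4, p5, p6⟩ := h.extract (i := s) ⟨le_rfl, h2⟩
    have l := p3.lt
    have e : s' = s := le_antisymm p1.1 (p2 ⟨le_rfl, l⟩).1
    subst e
    have hm : m ≤ t := by
      have := (p2 (show m - 1 ∈ Ico s' m from ⟨by omega, by omega⟩)).2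
      omega
    have e2 : Ico s' t \ Ico s' m = Ico m t := by
      ext j; simp only [mem_sdiff, mem_Ico]; omega
    rw [e2] at p4
    rcases hm.eq_or_lt with hm | hm
    · subst hm
      obtain ⟨q1, q2⟩ := p4.empty (by simp)
      exact (p3.spur c' X' q1 q2).cast (by rw [p5]; ring) (by rw [p6, union_comm])
    · exact (p3.join (ih m t c' X' (by omega) hm p4)).cast (by rw [p5]; ring)
        (by rw [p6, union_comm])

theorem BL.leaves (F : Finset ℕ) (hF : ∀ i ∈ F, P i = x) : ∃ X, BL P x ↑F 0 X := by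
  induction F using Finset.induction_on with
  | empty => exact ⟨∅, BL.nil.cast (by simp) rfl rfl⟩
  | insert i F hi ih =>
    obtain ⟨X, h⟩ := ih fun j hj => hF j (Finset.mem_insert_of_mem hj)
    have l := IT.leaf (P := P) i
    rw [hF i (Finset.mem_insert_self _ _)] at l
    refine ⟨_, (h.blk l ?_).cast ?_ (by simp) rfl⟩
    · rw [Set.disjoint_left]
      intro j hj hj2
      have : j = i := by have := hj2.1; have := hj2.2; omega
      exact hi (this ▸ hj)
    · ext j
      simp only [mem_union, mem_Ico, Finset.coe_insert, mem_insert_iff, Finset.mem_coe]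
      constructor
      · rintro (h | h)
        · exact Or.inr h
        · exact Or.inl (by omega)
      · rintro (h | h)
        · exact Or.inr (by omega)
        · exact Or.inl h

/-- A bounded order-convex set of naturals is empty or an interval. -/
theorem eq_Ico {J : Set ℕ} {t : ℕ} (hb : ∀ i ∈ J, i < t)
    (ho : ∀ a b c, a < b → b < c → a ∈ J → c ∈ J → b ∈ J) :
    J = ∅ ∨ ∃ a b, a < b ∧ J = Ico a b := by
  rcases J.eq_empty_or_nonempty with h | h
  · exact Or.inl h
  right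
  have hf : J.Finite := (finite_Iio t).subset hb
  obtain ⟨a, ha, ha'⟩ := J.exists_min_image id hf h
  obtain ⟨c, hc, hc'⟩ := J.exists_max_image id hf h
  have hac : a ≤ c := ha' c hc
  refine ⟨a, c + 1, by omega, ?_⟩
  ext b
  constructor
  · intro hb
    exact ⟨ha' b hb, Nat.lt_succ_of_le (hc' b hb)⟩
  · rintro ⟨h1, h2⟩
    rcases h1.eq_or_lt with h1 | h1
    · exact h1 ▸ ha
    rcases (Nat.le_of_lt_succ h2).eq_or_lt with h2 | h2
    · exact h2 ▸ hc
    exact ho a b c h1 h2 ha hc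

/-- All blocks at `u` are moved along an edge to `x` and added to the blocks there. -/
theorem BL.transfer {J J' : Set ℕ} {c c' : ℝ} {X X' : Set ℂ} {u : ℂ} (h : BL P x J c X)
    (h' : BL P u J' c' X') (hd : Disjoint J J') (hJ : J' = ∅ ∨ ∃ a b, a < b ∧ J' = Ico a b) :
    BL P x (J ∪ J') (c + (c' + dist u x)) (X ∪ X') := by
  rcases hJ with hJ | ⟨a, b, hab, rfl⟩
  · obtain ⟨q1, q2⟩ := h'.empty hJ
    refine (h.spur (c' + dist u x) X' (add_nonneg q1 dist_nonneg) fun z hz => ?_).cast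
      (by rw [hJ, union_empty]) rfl rfl
    linarith [q2 z hz, dist_triangle_left x z u]
  · exact h.blk ((BL.merge _ a b c' X' le_rfl hab h').move x) hd

end Pool.Agent.Lib.MP_4b56aa_gt.Red
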