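import Pool.Agent.Lib.MP_4b56aa_gt.Red.RTree
import Pool.Agent.Lib.MP_947c47_gt.Winding

namespace Pool.Agent.Lib.MP_4b56aa_gt.Red

open Set Complex Pool.Agent.Lib.MP_947c47_gt

theorem nv_re (ψ : ℝ) : (nv ψ).re = Real.cos ψ := Complex.exp_ofReal_mul_I_re ψ

theorem nv_im (ψ : ℝ) : (nv ψ).im = Real.sin ψ := Complex.exp_ofReal_mul_I_im ψ

theorem norm_nv (ψ : ℝ) : ‖nv ψ‖ = 1 := Complex.norm_exp_ofReal_mul_I ψ

theorem nv_add (a b : ℝ) : nv (a + b) = nv a * nv b := by
  unfold nv; rw [← Complex.exp_add]; congr 1; push_cast; ring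

theorem nv_zero : nv 0 = 1 := by simp [nv]

theorem nv_two_pi (a : ℝ) : nv (a + 2 * Real.pi) = nv a := by
  apply Complex.ext <;> simp [nv_re, nv_im]

theorem arg_chord {T δ : ℝ} (hT : 0 < T) (h0 : 0 < δ) (h1 : δ < 2 * Real.pi) :
    arg ((T : ℂ) - T * nv δ) = (δ - Real.pi) / 2 := by
  have hs : 0 < Real.sin (δ / 2) := Real.sin_pos_of_pos_of_lt_pi (by linarith) (by linarith)
  have e : (T : ℂ) - T * nv δ = ((2 * T * Real.sin (δ / 2) : ℝ) : ℂ) *
      (cos ((δ - Real.pi) / 2 : ℝ) + sin ((δ - Real.pi) / 2 : ℝ) * I) := by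
    have a1 : Real.cos ((δ - Real.pi) / 2) = Real.sin (δ / 2) := by
      rw [show (δ - Real.pi) / 2 = δ / 2 - Real.pi / 2 by ring, Real.cos_sub_pi_div_two]
    have a2 : Real.sin ((δ - Real.pi) / 2) = -Real.cos (δ / 2) := by
      rw [show (δ - Real.pi) / 2 = δ / 2 - Real.pi / 2 by ring, Real.sin_sub_pi_div_two]
    have b1 : Real.cos δ = 1 - 2 * Real.sin (δ / 2) ^ 2 := by
      have := Real.cos_two_mul (δ / 2)
      rw [show 2 * (δ / 2) = δ by ring] at this
      nlinarith [Real.sin_sq_add_cos_sq (δ / 2)]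
    have b2 : Real.sin δ = 2 * Real.sin (δ / 2) * Real.cos (δ / 2) := by
      have := Real.sin_two_mul (δ / 2)
      rwa [show 2 * (δ / 2) = δ by ring] at this
    rw [← ofReal_cos, ← ofReal_sin, a1, a2]
    apply Complex.ext
    · simp only [sub_re, ofReal_re, mul_re, ofReal_im, nv_re, nv_im, add_re, add_im, mul_im, I_re,
        I_im, b1]
      ring
    · simp only [sub_im, ofReal_re, mul_re, ofReal_im, nv_re, nv_im, add_re, add_im, mul_im, I_re,
        I_im, b2]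
      ring
  rw [e]
  exact arg_mul_cos_add_sin_mul_I (by positivity) ⟨by linarith, by linarith [Real.pi_pos]⟩

/-- The variation of a path in a disc seen from a point of the circle. -/
theorem var_disc {T : ℝ} (hT : 0 < T) {p : ℝ → ℂ} (hp : Continuous p) (hb : ∀ s, ‖p s‖ ≤ T)
    {β δ0 δ1 : ℝ} (hne : ∀ s, p s ≠ T * nv β) (e0 : p 0 = T * nv (β + δ0))
    (e1 : p 1 = T * nv (β + δ1)) (a0 : 0 < δ0) (b0 : δ0 < 2 * Real.pi) (a1 : 0 < δ1)
    (b1 : δ1 < 2 * Real.pi) {σ : ℂ} (hσ : σ * σ = 1) {v : ℂ}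
    (hv : Var (fun s => σ * (p s - T * nv β)) v) : v.im = (δ1 - δ0) / 2 := by
  have hσ0 : σ ≠ 0 := by rintro rfl; simp at hσ
  have hn : nv (-β) ≠ 0 := Complex.exp_ne_zero _
  have inv : nv (-β) * nv β = 1 := by rw [← nv_add, neg_add_cancel, nv_zero]
  have key : ∀ z : ℂ, -(σ * nv (-β)) * (σ * (z - T * nv β)) = T - z * nv (-β) := fun z => by
    linear_combination (-(nv (-β)) * (z - T * nv β)) * hσ + (T : ℂ) * inv
  have c := hv.unique (var_slit _ (by fun_prop) (-(σ * nv (-β)))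
    (neg_ne_zero.2 (mul_ne_zero hσ0 hn)) fun s => by
      apply mem_slit_of_re_nonneg
      · rw [key]
        have := (re_le_norm (p s * nv (-β))).trans_eq (by rw [norm_mul, norm_nv, mul_one])
        simp only [sub_re, ofReal_re]
        linarith [hb s]
      · exact mul_ne_zero (neg_ne_zero.2 (mul_ne_zero hσ0 hn))
          (mul_ne_zero hσ0 (sub_ne_zero.2 (hne s))))
  have k : ∀ δ : ℝ, (T : ℂ) * nv (β + δ) * nv (-β) = T * nv δ := fun δ => by
    rw [mul_assoc, ← nv_add]; congr 2; ring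
  rw [c]
  simp only [key, e0, e1, k, sub_im, log_im, arg_chord hT a0 b0, arg_chord hT a1 b1]
  ring

/-- Two disjoint subsets of a disc cannot join alternating pairs of points of the circle. -/
theorem cross_disc {T : ℝ} (hT : 0 < T) {α1 α2 α3 α4 : ℝ} (h12 : α1 < α2) (h23 : α2 < α3)
    (h34 : α3 < α4) (h41 : α4 < α1 + 2 * Real.pi) {A B : Set ℂ} (hA : ∀ z ∈ A, ‖z‖ ≤ T)
    (hB : ∀ z ∈ B, ‖z‖ ≤ T) (hd : Disjoint A B) (j1 : JoinedIn A (T * nv α1) (T * nv α3))
    (j2 : JoinedIn B (T * nv α2) (T * nv α4)) : False := by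
  obtain ⟨γ1, g1⟩ := j1
  obtain ⟨γ2, g2⟩ := j2
  have m1 : ∀ s : ℝ, γ1.extend s ∈ A := fun s => by
    obtain ⟨u, hu⟩ : γ1.extend s ∈ range γ1 := γ1.extend_range ▸ mem_range_self s
    exact hu ▸ g1 u
  have m2 : ∀ s : ℝ, γ2.extend s ∈ B := fun s => by
    obtain ⟨u, hu⟩ : γ2.extend s ∈ range γ2 := γ2.extend_range ▸ mem_range_self s
    exact hu ▸ g2 u
  have hne : ∀ s t : ℝ, γ1.extend s ≠ γ2.extend t := fun s t h =>
    Set.disjoint_left.1 hd (m1 s) (h ▸ m2 t)
  have c1 := γ1.continuous_extend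
  have c2 := γ2.continuous_extend
  obtain ⟨v1, v2, v3, v4, a1, a2, a3, a4, e⟩ := var_square _ _ c1 c2 hne
  have p0 := γ1.extend_zero
  have p1 := γ1.extend_one
  have q0 := γ2.extend_zero
  have q1 := γ2.extend_one
  have w : ∀ a b : ℝ, nv (b + (a - b)) = nv a := fun a b => by congr 1; ring
  have w' : ∀ a b : ℝ, nv (b + (a - b + 2 * Real.pi)) = nv a := fun a b => by
    rw [← nv_two_pi a]; congr 1; ring
  have pi := Real.pi_pos
  have r1 := var_disc hT c1 (fun s => hA _ (m1 s)) (β := α2) (δ0 := α1 - α2 + 2 * Real.pi)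
    (δ1 := α3 - α2) (fun s => q0 ▸ hne s 0) (by rw [w', p0]) (by rw [w, p1]) (by linarith)
    (by linarith) (by linarith) (by linarith) (σ := 1) (by simp) (v := v1)
    (by simpa only [one_mul, q0] using a1)
  have r2 := var_disc hT c2 (fun s => hB _ (m2 s)) (β := α3) (δ0 := α2 - α3 + 2 * Real.pi)
    (δ1 := α4 - α3) (fun s => p1 ▸ (hne 1 s).symm) (by rw [w', q0]) (by rw [w, q1]) (by linarith)
    (by linarith) (by linarith) (by linarith) (σ := -1) (by simp) (v := v2)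
    (by simpa only [neg_one_mul, neg_sub, p1] using a2)
  have r3 := var_disc hT c2 (fun s => hB _ (m2 s)) (β := α1) (δ0 := α2 - α1)
    (δ1 := α4 - α1) (fun s => p0 ▸ (hne 0 s).symm) (by rw [w, q0]) (by rw [w, q1]) (by linarith)
    (by linarith) (by linarith) (by linarith) (σ := -1) (by simp) (v := v3)
    (by simpa only [neg_one_mul, neg_sub, p0] using a3)
  have r4 := var_disc hT c1 (fun s => hA _ (m1 s)) (β := α4) (δ0 := α1 - α4 + 2 * Real.pi)
    (δ1 := α3 - α4 + 2 * Real.pi) (fun s => q1 ▸ hne s 1) (by rw [w', p0]) (by rw [w', p1])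
    (by linarith) (by linarith) (by linarith) (by linarith) (σ := 1) (by simp) (v := v4)
    (by simpa only [one_mul, q1] using a4)
  have := congrArg Complex.im e
  simp only [add_im, r1, r2, r3, r4] at this
  linarith

/-- Polar coordinates of points listed counterclockwise. -/
theorem polar {n : ℕ} {q : ℕ → ℂ} {ψ : ℕ → ℝ} (hq : ∀ i, q (i + n) = q i)
    (hψ : ∀ i, ψ (i + n) = ψ i + 2 * Real.pi)
    (hmono : ∀ i, ψ i ≤ ψ (i + 1))
    (hpos : ∀ i, 0 < dot (q i) (nv (ψ i)))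
    (hcr : ∀ i, 0 < (q i).re * (q (i + 1)).im - (q i).im * (q (i + 1)).re) :
    ∃ α : ℕ → ℝ, (∀ i, 0 < ‖q i‖ ∧ q i = ‖q i‖ * nv (α i)) ∧ StrictMono α ∧
      α n = α 0 + 2 * Real.pi := by
  have re : ∀ i, 0 < (q i * nv (-ψ i)).re := fun i => by
    have := hpos i
    simp only [dot, nv_re, nv_im] at this
    simp only [mul_re, nv_re, nv_im, Real.cos_neg, Real.sin_neg]
    linarith
  have q0 : ∀ i, 0 < ‖q i‖ := fun i => norm_pos_iff.2 fun h => by simpa [h] using re i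
  have bd : ∀ i, |arg (q i * nv (-ψ i))| < Real.pi / 2 := fun i =>
    abs_arg_lt_pi_div_two_iff.2 (Or.inl (re i))
  have rep : ∀ i, q i = ‖q i‖ * nv (ψ i + arg (q i * nv (-ψ i))) := fun i => by
    have h := norm_mul_exp_arg_mul_I (q i * nv (-ψ i))
    rw [norm_mul, norm_nv, mul_one] at h
    have inv : nv (-ψ i) * nv (ψ i) = 1 := by rw [← nv_add, neg_add_cancel, nv_zero]
    rw [nv_add]
    unfold nv at h inv ⊢
    linear_combination (-cexp (ψ i * I)) * h - q i * inv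
  refine ⟨fun i => ψ i + arg (q i * nv (-ψ i)), fun i => ⟨q0 i, rep i⟩,
    strictMono_nat_of_lt_succ fun i => ?_, ?_⟩
  · by_contra hc
    have h := hcr i
    set a := ψ i + arg (q i * nv (-ψ i)) with ha
    set b := ψ (i + 1) + arg (q (i + 1) * nv (-ψ (i + 1))) with hb
    have r1 := rep i
    have r2 := rep (i + 1)
    rw [← ha] at r1
    rw [← hb] at r2
    have s1 : Real.sin (b - a) ≤ 0 := by
      apply Real.sin_nonpos_of_nonpos_of_neg_pi_le (by linarith [not_lt.1 hc])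
      have := abs_lt.1 (bd i)
      have := abs_lt.1 (bd (i + 1))
      linarith [hmono i]
    have e1 := congrArg Complex.re r1
    have e2 := congrArg Complex.im r1
    have e3 := congrArg Complex.re r2
    have e4 := congrArg Complex.im r2
    simp only [re_ofReal_mul, im_ofReal_mul, nv_re, nv_im] at e1 e2 e3 e4
    rw [e1, e2, e3, e4] at h
    rw [Real.sin_sub] at s1
    nlinarith [mul_pos (q0 i) (q0 (i + 1))]
  · have e1 := hq 0
    have e2 := hψ 0
    rw [zero_add] at e1 e2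
    have e3 : nv (-ψ n) = nv (-ψ 0) := by
      rw [← nv_two_pi (-ψ n), e2]; congr 1; ring
    show ψ n + arg (q n * nv (-ψ n)) = ψ 0 + arg (q 0 * nv (-ψ 0)) + 2 * Real.pi
    rw [e1, e3, e2]
    ring

end Pool.Agent.Lib.MP_4b56aa_gt.Red
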