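import Mathlib

/-! Interval trees and finite nets for the lower bound on the length of a continuum. -/

namespace Pool.Agent.Lib.MP_4b56aa_gt.Red

open Set

/-- Euclidean scalar product of two complex numbers. -/
def dot (a b : ℂ) : ℝ := a.re * b.re + a.im * b.im

/-- The unit vector of argument `ψ`. -/
noncomputable def nv (ψ : ℝ) : ℂ := Complex.exp (ψ * Complex.I)

/-- `IT P s t x c X`: the terminals `P s, ..., P (t-1)` are joined to the root `x` by a tree of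
length `c` all of whose subtrees carry intervals of terminals; the tree visits the set `X`. -/
inductive IT (P : ℕ → ℂ) : ℕ → ℕ → ℂ → ℝ → Set ℂ → Prop
  | leaf (s : ℕ) : IT P s (s + 1) (P s) 0 {P s}
  | move {s t : ℕ} {x : ℂ} {c : ℝ} {X : Set ℂ} (y : ℂ) :
      IT P s t x c X → IT P s t y (c + dist x y) X
  | join {s m t : ℕ} {x : ℂ} {c d : ℝ} {X Y : Set ℂ} :
      IT P s m x c X → IT P m t x d Y → IT P s t x (c + d) (X ∪ Y)
  | spur {s t : ℕ} {x : ℂ} {c : ℝ} {X : Set ℂ} (d : ℝ) (Y : Set ℂ) :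
      IT P s t x c X → 0 ≤ d → (∀ z ∈ Y, dist x z ≤ d) → IT P s t x (c + d) (X ∪ Y)

/-- A family of interval trees with the common root `x`, carrying the terminals in `J`. -/
inductive BL (P : ℕ → ℂ) (x : ℂ) : Set ℕ → ℝ → Set ℂ → Prop
  | nil : BL P x ∅ 0 ∅
  | blk {J : Set ℕ} {c : ℝ} {X : Set ℂ} {s t : ℕ} {d : ℝ} {Y : Set ℂ} :
      BL P x J c X → IT P s t x d Y → Disjoint J (Ico s t) → BL P x (J ∪ Ico s t) (c + d) (X ∪ Y)
  | spur {J : Set ℕ} {c : ℝ} {X : Set ℂ} (d : ℝ) (Y : Set ℂ) :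
      BL P x J c X → 0 ≤ d → (∀ z ∈ Y, dist x z ≤ d) → BL P x J (c + d) (X ∪ Y)

/-- The points of `W` are connected by the edges of `E` with both ends in `W`. -/
def Conn (E : Finset (ℂ × ℂ)) (W : Finset ℂ) : Prop :=
  ∀ a ∈ W, ∀ b ∈ W, Relation.EqvGen (fun u v : ℂ => (u, v) ∈ E ∧ u ∈ W ∧ v ∈ W) a b

/-- Total length of a finite set of edges. -/
noncomputable def len (E : Finset (ℂ × ℂ)) : ℝ := ∑ e ∈ E, dist e.1 e.2

/-- No third point of `V` is closer to both ends of an edge than the ends are to each other. -/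
def Gab (E : Finset (ℂ × ℂ)) (V : Finset ℂ) : Prop :=
  ∀ e ∈ E, ∀ z ∈ V, z ≠ e.1 → z ≠ e.2 → ¬ (dist z e.1 < dist e.1 e.2 ∧ dist z e.2 < dist e.1 e.2)

/-- Every connected splitting of `V` cuts an order-convex set of indices out of `[s, t)`. -/
def Planar (P : ℕ → ℂ) (E : Finset (ℂ × ℂ)) (V : Finset ℂ) (x0 : ℂ) (s t : ℕ) : Prop :=
  ∀ W1 W2 : Finset ℂ, Disjoint W1 W2 → (∀ z, z ∈ V ↔ z ∈ W1 ∨ z ∈ W2) → Conn E W1 → Conn E W2 →
    x0 ∈ W2 → ∀ a b c : ℕ, s ≤ a → a < b → b < c → c < t → P a ∈ W1 → P c ∈ W1 → P b ∈ W1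

end Pool.Agent.Lib.MP_4b56aa_gt.Red
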