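import Pool.Agent.Lib.MP_4b56aa_gt.Red.RTree

namespace Pool.Agent.Lib.MP_4b56aa_gt.Red

open Set MeasureTheory Metric

/-- A finite cover by small open sets whose sizes add up to almost the length. -/
theorem exists_cover {S : Set ℂ} (hS : IsCompact S) (hfin : μH[1] S ≠ ⊤) {δ ε : ℝ} (hδ : 0 < δ)
    (hε : 0 < ε) : ∃ (U : ℕ → Set ℂ) (d : ℕ → ℝ) (F : Finset ℕ), (∀ j, IsOpen (U j)) ∧
      (∀ j, 0 ≤ d j ∧ d j ≤ δ) ∧ (∀ j, ∀ x ∈ U j, ∀ y ∈ U j, dist x y ≤ d j) ∧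
      (∀ x ∈ S, ∃ j ∈ F, x ∈ U j) ∧ ∑ j ∈ F, d j ≤ (μH[1] S).toReal + ε := by
  have h1 : (⨅ (t : ℕ → Set ℂ) (_ : S ⊆ ⋃ n, t n) (_ : ∀ n, ediam (t n) ≤ ENNReal.ofReal (δ / 2)),
      ∑' n, ⨆ _ : (t n).Nonempty, ediam (t n) ^ (1 : ℝ)) ≤ μH[1] S := by
    rw [Measure.hausdorffMeasure_apply]
    exact le_iSup₂_of_le (ENNReal.ofReal (δ / 2)) (by simpa using hδ) le_rfl
  have h2 := h1.trans_lt (ENNReal.lt_add_right hfin
    (show ENNReal.ofReal (ε / 2) ≠ 0 by simpa using hε))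
  simp only [iInf_lt_iff] at h2
  obtain ⟨t, ht, hd, hs⟩ := h2
  have hs' : ∑' n, ediam (t n) ≤ μH[1] S + ENNReal.ofReal (ε / 2) := by
    refine le_trans (ENNReal.tsum_le_tsum fun n => ?_) hs.le
    rcases (t n).eq_empty_or_nonempty with h | h
    · simp [h]
    · simp [h]
  have fin : ∀ n, ediam (t n) ≠ ⊤ := fun n => ne_top_of_le_ne_top ENNReal.ofReal_ne_top (hd n)
  set m := min (δ / 4) (ε / 8) with hm
  have m0 : 0 < m := lt_min (by linarith) (by linarith)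
  have m1 : m ≤ δ / 4 := min_le_left _ _
  have m2 : m ≤ ε / 8 := min_le_right _ _
  have pw : ∀ n : ℕ, 0 < m * (1 / 2) ^ n ∧ m * (1 / 2 : ℝ) ^ n ≤ m := fun n =>
    ⟨by positivity, mul_le_of_le_one_right m0.le (pow_le_one₀ (by norm_num) (by norm_num))⟩
  obtain ⟨F, hF⟩ := hS.elim_finite_subcover (fun n => thickening (m * (1 / 2) ^ n) (t n))
    (fun _ => isOpen_thickening) fun x hx => by
      obtain ⟨n, hn⟩ := mem_iUnion.1 (ht hx)
      exact mem_iUnion.2 ⟨n, self_subset_thickening (pw n).1 _ hn⟩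
  refine ⟨fun n => thickening (m * (1 / 2) ^ n) (t n), fun n => diam (t n) + 2 * (m * (1 / 2) ^ n),
    F, fun _ => isOpen_thickening, fun n => ⟨?_, ?_⟩, fun n x hx y hy => ?_, fun x hx => ?_, ?_⟩
  · linarith [diam_nonneg (s := t n), (pw n).1]
  · have : diam (t n) ≤ δ / 2 := ENNReal.toReal_le_of_le_ofReal (by linarith) (hd n)
    linarith [(pw n).2]
  · exact (dist_le_diam_of_mem (isBounded_iff_ediam_ne_top.2 (fin n)).thickening hx hy).trans
      (diam_thickening_le _ (pw n).1.le)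
  · simpa using hF hx
  · rw [Finset.sum_add_distrib, ← Finset.mul_sum, ← Finset.mul_sum]
    have a : ∑ n ∈ F, diam (t n) ≤ (μH[1] S).toReal + ε / 2 := by
      have := ENNReal.toReal_mono (ENNReal.add_ne_top.2 ⟨hfin, ENNReal.ofReal_ne_top⟩)
        ((ENNReal.sum_le_tsum F).trans hs')
      rwa [ENNReal.toReal_sum fun n _ => fin n, ENNReal.toReal_add hfin ENNReal.ofReal_ne_top,
        ENNReal.toReal_ofReal (by linarith)] at this
    have b : ∑ n ∈ F, (1 / 2 : ℝ) ^ n ≤ 2 :=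
      sum_le_hasSum F (fun _ _ => by positivity) hasSum_geometric_two
    nlinarith

theorem eqv_mono {r r' : ℂ → ℂ → Prop} (h : ∀ u v, r u v → r' u v) {a b : ℂ}
    (hab : Relation.EqvGen r a b) : Relation.EqvGen r' a b := by
  induction hab with
  | rel u v k => exact .rel _ _ (h u v k)
  | refl => exact .refl _
  | symm _ _ _ ih => exact .symm _ _ ih
  | trans _ _ _ _ _ ih1 ih2 => exact .trans _ _ _ ih1 ih2

theorem len_nonneg (E : Finset (ℂ × ℂ)) : 0 ≤ len E := Finset.sum_nonneg fun _ _ => dist_nonneg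

theorem len_mono {E E' : Finset (ℂ × ℂ)} (h : E ⊆ E') : len E ≤ len E' :=
  Finset.sum_le_sum_of_subset_of_nonneg h fun _ _ _ => dist_nonneg

theorem len_union_le (E E' : Finset (ℂ × ℂ)) : len (E ∪ E') ≤ len E + len E' := by
  have := Finset.sum_union_inter (s₁ := E) (s₂ := E') (f := fun e => dist e.1 e.2)
  have h := len_nonneg (E ∩ E')
  unfold len at h ⊢
  linarith

theorem conn_single (E : Finset (ℂ × ℂ)) (a : ℂ) : Conn E {a} := fun u hu v hv => by
  rw [Finset.mem_singleton.1 hu, Finset.mem_singleton.1 hv]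
  exact Relation.EqvGen.refl _

/-- New points joined to old ones keep a net connected. -/
theorem Conn.grow {E E' : Finset (ℂ × ℂ)} {W W' : Finset ℂ} (h : Conn E W) (hE : E ⊆ E')
    (hW : W ⊆ W') (hn : ∀ b ∈ W', b ∉ W → ∃ a ∈ W, (b, a) ∈ E' ∨ (a, b) ∈ E') : Conn E' W' := by
  have old : ∀ a ∈ W, ∀ b ∈ W,
      Relation.EqvGen (fun u v : ℂ => (u, v) ∈ E' ∧ u ∈ W' ∧ v ∈ W') a b := fun a ha b hb =>
    eqv_mono (fun u v huv => ⟨hE huv.1, hW huv.2.1, hW huv.2.2⟩) (h a ha b hb)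
  have step : ∀ b ∈ W', ∃ a ∈ W,
      Relation.EqvGen (fun u v : ℂ => (u, v) ∈ E' ∧ u ∈ W' ∧ v ∈ W') b a := fun b hb => by
    by_cases c : b ∈ W
    · exact ⟨b, c, .refl _⟩
    · obtain ⟨a, ha, h1 | h1⟩ := hn b hb c
      · exact ⟨a, ha, .rel _ _ ⟨h1, hb, hW ha⟩⟩
      · exact ⟨a, ha, .symm _ _ (.rel _ _ ⟨h1, hW ha, hb⟩)⟩
  intro a ha b hb
  obtain ⟨a', ha', p⟩ := step a ha
  obtain ⟨b', hb', p'⟩ := step b hb
  exact .trans _ _ _ p (.trans _ _ _ (old a' ha' b' hb') (.symm _ _ p'))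

/-- `A` lies in a connected net in `S` with short edges and length at most `c`. -/
def Net (S : Set ℂ) (δ : ℝ) (A : Finset ℂ) (c : ℝ) : Prop :=
  ∃ (V : Finset ℂ) (E : Finset (ℂ × ℂ)), A ⊆ V ∧ ↑V ⊆ S ∧ Conn E V ∧
    (∀ e ∈ E, dist e.1 e.2 ≤ δ) ∧ len E ≤ c

theorem Net.star {S : Set ℂ} {δ c d : ℝ} {A B : Finset ℂ} {a : ℂ} (h : Net S δ A c) (ha : a ∈ A)
    (hB : ↑B ⊆ S) (hd : ∀ b ∈ B, dist b a ≤ d) (hdδ : d ≤ δ) :
    Net S δ (A ∪ B) (c + B.card * d) := by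
  classical
  obtain ⟨V, E, h1, h2, h3, h4, h5⟩ := h
  refine ⟨V ∪ B, E ∪ B.image fun b => (b, a), Finset.union_subset_union h1 subset_rfl, ?_,
    h3.grow Finset.subset_union_left Finset.subset_union_left fun b hb hb' => ⟨a, h1 ha, Or.inl ?_⟩,
    fun e he => ?_, (len_union_le _ _).trans (add_le_add h5 ?_)⟩
  · rw [Finset.coe_union]; exact union_subset h2 hB
  · exact Finset.mem_union_right _ (Finset.mem_image_of_mem _
      ((Finset.mem_union.1 hb).resolve_left hb'))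
  · rcases Finset.mem_union.1 he with he | he
    · exact h4 e he
    · obtain ⟨b, hb, rfl⟩ := Finset.mem_image.1 he
      exact (hd b hb).trans hdδ
  · unfold len
    rw [Finset.sum_image fun x _ y _ h => (Prod.mk.inj h).1]
    simpa using Finset.sum_le_card_nsmul B _ d hd

theorem Net.mono {S : Set ℂ} {δ c c' : ℝ} {A A' : Finset ℂ} (h : Net S δ A c) (hA : A' ⊆ A)
    (hc : c ≤ c') : Net S δ A' c' := by
  obtain ⟨V, E, h1, h2, h3, h4, h5⟩ := h
  exact ⟨V, E, hA.trans h1, h2, h3, h4, h5.trans hc⟩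

theorem net_single {S : Set ℂ} (δ : ℝ) {a : ℂ} (ha : a ∈ S) : Net S δ {a} 0 :=
  ⟨{a}, ∅, subset_rfl, by simpa using ha, conn_single _ _, by simp, by simp [len]⟩

theorem net_of_cover {S : Set ℂ} (hc : IsConnected S) {δ : ℝ} {U : ℕ → Set ℂ} {d : ℕ → ℝ}
    {F : Finset ℕ} (hU : ∀ j, IsOpen (U j)) (hd : ∀ j, 0 ≤ d j ∧ d j ≤ δ)
    (hdi : ∀ j, ∀ x ∈ U j, ∀ y ∈ U j, dist x y ≤ d j) (hF : ∀ x ∈ S, ∃ j ∈ F, x ∈ U j)
    (A : Finset ℂ) (hA : ↑A ⊆ S) : Net S δ A (∑ j ∈ F, d j + A.card * δ) := by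
  classical
  have δ0 : 0 ≤ δ := (hd 0).1.trans (hd 0).2
  let Q : Finset ℕ → Prop := fun G => (∃ x ∈ S, ∃ j ∈ G, x ∈ U j) ∧ ∀ A : Finset ℂ,
    (∀ x ∈ A, x ∈ S ∧ ∃ j ∈ G, x ∈ U j) → Net S δ A (∑ j ∈ G, d j + A.card * δ)
  obtain ⟨x0, hx0⟩ := hc.nonempty
  obtain ⟨j0, hj0, hx0'⟩ := hF x0 hx0
  have base : Q {j0} := by
    refine ⟨⟨x0, hx0, j0, Finset.mem_singleton_self _, hx0'⟩, fun A hA => ?_⟩
    refine ((net_single δ hx0).star (Finset.mem_singleton_self _) (B := A) (d := δ)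
      (fun x hx => (hA x hx).1) (fun b hb => ?_) le_rfl).mono Finset.subset_union_right ?_
    · obtain ⟨j, hj, hb'⟩ := (hA b hb).2
      rw [Finset.mem_singleton.1 hj] at hb'
      exact (hdi _ _ hb' _ hx0').trans (hd _).2
    · simp [(hd j0).1]
  have step : ∀ G j, j ∉ G → Q G → (∃ a ∈ S, a ∈ U j ∧ ∃ k ∈ G, a ∈ U k) → Q (insert j G) := by
    rintro G j hj ⟨-, hG⟩ ⟨a, ha, haj, hak⟩
    refine ⟨⟨a, ha, j, Finset.mem_insert_self _ _, haj⟩, fun A hA => ?_⟩
    rw [Finset.sum_insert hj]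
    set B := A.filter fun x => ¬ ∃ k ∈ G, x ∈ U k with hB
    set A0 := A.filter fun x => ∃ k ∈ G, x ∈ U k with hA0
    have card : A0.card + B.card = A.card := Finset.card_filter_add_card_filter_not _
    have h0 : ∀ x ∈ A0, x ∈ S ∧ ∃ k ∈ G, x ∈ U k := fun x hx =>
      ⟨(hA x (Finset.mem_filter.1 hx).1).1, (Finset.mem_filter.1 hx).2⟩
    have sub : A ⊆ A0 ∪ B := fun x hx => by
      by_cases c : ∃ k ∈ G, x ∈ U k
      · exact Finset.mem_union_left _ (Finset.mem_filter.2 ⟨hx, c⟩)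
      · exact Finset.mem_union_right _ (Finset.mem_filter.2 ⟨hx, c⟩)
    have cardR : (A0.card : ℝ) + B.card = A.card := by exact_mod_cast card
    rcases B.eq_empty_or_nonempty with hb | hb
    · rw [hb, Finset.union_empty] at sub
      rw [hb] at cardR
      refine (hG A0 h0).mono sub ?_
      rw [← cardR]; simp [(hd j).1]
    · have n1 := hG (insert a A0) fun x hx => by
        rcases Finset.mem_insert.1 hx with rfl | hx
        · exact ⟨ha, hak⟩
        · exact h0 x hx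
      refine (n1.star (Finset.mem_insert_self _ _) (B := B) (d := d j)
        (fun x hx => (hA x (Finset.mem_filter.1 hx).1).1) (fun b hb => ?_) (hd j).2).mono
        (sub.trans (Finset.union_subset_union (Finset.subset_insert _ _) subset_rfl)) ?_
      · obtain ⟨hb1, hb2⟩ := Finset.mem_filter.1 hb
        obtain ⟨k, hk, hb'⟩ := (hA b hb1).2
        rcases Finset.mem_insert.1 hk with rfl | hk
        · exact hdi _ _ hb' _ haj
        · exact (hb2 ⟨k, hk, hb'⟩).elim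
      · have c1 : ((insert a A0).card : ℝ) ≤ A0.card + 1 := by
          exact_mod_cast Finset.card_insert_le a A0
        have c2 : (1 : ℝ) ≤ B.card := by exact_mod_cast hb.card_pos
        rw [← cardR]
        nlinarith [(hd j).2, mul_le_mul_of_nonneg_right c1 δ0]
  obtain ⟨G, hG, hmax⟩ := (F.powerset.filter Q).exists_max_image Finset.card
    ⟨{j0}, Finset.mem_filter.2 ⟨by simpa using hj0, base⟩⟩
  obtain ⟨hGF, hQ⟩ := Finset.mem_filter.1 hG
  rw [Finset.mem_powerset] at hGF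
  have cov : ∀ x ∈ S, ∃ j ∈ G, x ∈ U j := by
    by_contra hn
    push Not at hn
    obtain ⟨x, hx, hx'⟩ := hn
    obtain ⟨j, hj, hxj⟩ := hF x hx
    obtain ⟨a, ha, ha1, ha2⟩ := hc.isPreconnected (⋃ k ∈ G, U k) (⋃ k ∈ F \ G, U k)
      (isOpen_biUnion fun k _ => hU k) (isOpen_biUnion fun k _ => hU k)
      (fun y hy => by
        obtain ⟨k, hk, hyk⟩ := hF y hy
        by_cases c : k ∈ G
        · exact Or.inl (mem_biUnion c hyk)
        · exact Or.inr (mem_biUnion (Finset.mem_sdiff.2 ⟨hk, c⟩) hyk))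
      (by obtain ⟨y, hy, k, hk, hyk⟩ := hQ.1; exact ⟨y, hy, mem_biUnion hk hyk⟩)
      ⟨x, hx, mem_biUnion (Finset.mem_sdiff.2 ⟨hj, fun c => hx' j c hxj⟩) hxj⟩
    simp only [mem_iUnion, exists_prop] at ha1 ha2
    obtain ⟨k, hk, hak⟩ := ha2
    obtain ⟨hk1, hk2⟩ := Finset.mem_sdiff.1 hk
    have := hmax (insert k G) (Finset.mem_filter.2 ⟨Finset.mem_powerset.2
      (Finset.insert_subset hk1 hGF), step G k hk2 hQ ⟨a, ha, hak, ha1⟩⟩)
    rw [Finset.card_insert_of_notMem hk2] at this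
    omega
  refine (hQ.2 A fun x hx => ⟨hA hx, cov x (hA hx)⟩).mono subset_rfl ?_
  have := Finset.sum_le_sum_of_subset_of_nonneg hGF fun j _ _ => (hd j).1
  linarith

theorem exists_net {S : Set ℂ} (hS : IsCompact S) (hc : IsConnected S) (hfin : μH[1] S ≠ ⊤)
    (A : Finset ℂ) (hA : ↑A ⊆ S) {δ ε : ℝ} (hδ : 0 < δ) (hε : 0 < ε) :
    Net S δ A ((μH[1] S).toReal + ε) := by
  have p : 0 < ε / 2 / (A.card + 1) := by positivity
  obtain ⟨U, d, F, h1, h2, h3, h4, h5⟩ := exists_cover hS hfin (lt_min hδ p) (half_pos hε)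
  obtain ⟨V, E, k1, k2, k3, k4, k5⟩ := net_of_cover hc h1 h2 h3 h4 A hA
  refine ⟨V, E, k1, k2, k3, fun e he => (k4 e he).trans (min_le_left _ _), k5.trans ?_⟩
  have a : (A.card : ℝ) * min δ (ε / 2 / (A.card + 1)) ≤ (A.card + 1) * (ε / 2 / (A.card + 1)) :=
    mul_le_mul (by linarith) (min_le_right _ _) (lt_min hδ p).le (by positivity)
  rw [mul_div_cancel₀ _ (by positivity)] at a
  linarith

/-- A shortest net on the same points has the lens property. -/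
theorem exists_gab {E : Finset (ℂ × ℂ)} {V : Finset ℂ} {δ : ℝ} (hc : Conn E V)
    (hδ : ∀ e ∈ E, dist e.1 e.2 ≤ δ) : ∃ E' : Finset (ℂ × ℂ), Conn E' V ∧
      (∀ e ∈ E', e.1 ∈ V ∧ e.2 ∈ V ∧ dist e.1 e.2 ≤ δ) ∧ len E' ≤ len E ∧ Gab E' V := by
  classical
  let Q : Finset (ℂ × ℂ) → Prop := fun G => Conn G V ∧ ∀ e ∈ G, dist e.1 e.2 ≤ δ
  have m0 : E.filter (fun e => e.1 ∈ V ∧ e.2 ∈ V) ∈ (V ×ˢ V).powerset.filter Q := by
    refine Finset.mem_filter.2 ⟨Finset.mem_powerset.2 fun e he =>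
      Finset.mem_product.2 (Finset.mem_filter.1 he).2, fun a ha b hb => ?_,
      fun e he => hδ e (Finset.mem_filter.1 he).1⟩
    exact eqv_mono (fun u v h => ⟨Finset.mem_filter.2 ⟨h.1, h.2⟩, h.2⟩) (hc a ha b hb)
  obtain ⟨G, hG, hmin⟩ := ((V ×ˢ V).powerset.filter Q).exists_min_image len ⟨_, m0⟩
  obtain ⟨hGV, hG1, hG2⟩ := Finset.mem_filter.1 hG
  rw [Finset.mem_powerset] at hGV
  refine ⟨G, hG1, fun e he => ⟨(Finset.mem_product.1 (hGV he)).1,
    (Finset.mem_product.1 (hGV he)).2, hG2 e he⟩,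
    (hmin _ m0).trans (len_mono (Finset.filter_subset _ _)), ?_⟩
  rintro ⟨x, y⟩ he z hz - - ⟨d1, d2⟩
  obtain ⟨hx, hy⟩ := Finset.mem_product.1 (hGV he)
  simp only at d1 d2 hx hy
  let r : Finset (ℂ × ℂ) → ℂ → ℂ → Prop := fun G =>
    Relation.EqvGen fun u v : ℂ => (u, v) ∈ G ∧ u ∈ V ∧ v ∈ V
  have side : ∀ a b, r G a b → ((r (G.erase (x, y)) a x ∨ r (G.erase (x, y)) a y) ↔
      (r (G.erase (x, y)) b x ∨ r (G.erase (x, y)) b y)) := by
    intro a b h
    induction h with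
    | rel u v h =>
      by_cases c : (u, v) = (x, y)
      · obtain ⟨rfl, rfl⟩ := Prod.mk.inj c
        exact iff_of_true (Or.inl (.refl _)) (Or.inr (.refl _))
      · have k : r (G.erase (x, y)) u v := .rel _ _ ⟨Finset.mem_erase.2 ⟨c, h.1⟩, h.2⟩
        exact ⟨fun h => h.imp (.trans _ _ _ (.symm _ _ k)) (.trans _ _ _ (.symm _ _ k)),
          fun h => h.imp (.trans _ _ _ k) (.trans _ _ _ k)⟩
    | refl => rfl
    | symm _ _ _ ih => exact ih.symm
    | trans _ _ _ _ _ ih1 ih2 => exact ih1.trans ih2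
  have swap : ∀ w ∈ V, dist z w < dist x y → ¬ r (insert (z, w) (G.erase (x, y))) x y := by
    intro w hw hd hr
    have mem : insert (z, w) (G.erase (x, y)) ∈ (V ×ˢ V).powerset.filter Q := by
      refine Finset.mem_filter.2 ⟨Finset.mem_powerset.2 (Finset.insert_subset
        (Finset.mem_product.2 ⟨hz, hw⟩) ((Finset.erase_subset _ _).trans hGV)),
        fun a ha b hb => ?_, fun e he' => ?_⟩
      · have h := hG1 a ha b hb
        clear ha hb
        induction h with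
        | rel u v h =>
          by_cases c : (u, v) = (x, y)
          · obtain ⟨rfl, rfl⟩ := Prod.mk.inj c
            exact hr
          · exact .rel _ _ ⟨Finset.mem_insert_of_mem (Finset.mem_erase.2 ⟨c, h.1⟩), h.2⟩
        | refl => exact .refl _
        | symm _ _ _ ih => exact .symm _ _ ih
        | trans _ _ _ _ _ ih1 ih2 => exact .trans _ _ _ ih1 ih2
      · rcases Finset.mem_insert.1 he' with rfl | he'
        · exact hd.le.trans (hG2 _ he)
        · exact hG2 _ (Finset.mem_of_mem_erase he')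
    have l1 := hmin _ mem
    have l2 : len (G.erase (x, y)) + dist x y = len G := Finset.sum_erase_add _ _ he
    have l3 := len_union_le {(z, w)} (G.erase (x, y))
    rw [← Finset.insert_eq] at l3
    have l4 : len {(z, w)} = dist z w := by simp [len]
    linarith
  have up : ∀ w a b, r (G.erase (x, y)) a b → r (insert (z, w) (G.erase (x, y))) a b :=
    fun w a b h => eqv_mono (fun u v h => ⟨Finset.mem_insert_of_mem h.1, h.2⟩) h
  rcases (side z x (hG1 z hz x hx)).2 (Or.inl (.refl _)) with h | h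
  · exact swap y hy d2 (.trans _ _ _ (.symm _ _ (up y _ _ h))
      (.rel _ _ ⟨Finset.mem_insert_self _ _, hz, hy⟩))
  · exact swap x hx d1 (.trans _ _ _ (.symm _ _ (.rel _ _ ⟨Finset.mem_insert_self _ _, hz, hx⟩))
      (up x _ _ h))

end Pool.Agent.Lib.MP_4b56aa_gt.Red
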