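import Pool.Agent.Lib.MP_4b56aa_gt.Red.RBlock
import Pool.Agent.Lib.MP_4b56aa_gt.Red.RNet

namespace Pool.Agent.Lib.MP_4b56aa_gt.Red

open Set

/-- A connected net whose splittings cut out intervals carries an interval tree. -/
theorem peel {P : ℕ → ℂ} {E : Finset (ℂ × ℂ)} {V : Finset ℂ} {x0 : ℂ} {s t : ℕ} (hc : Conn E V)
    (hx : x0 ∈ V) (hst : s < t) (hP : ∀ i, P i ∈ V) (hpl : Planar P E V x0 s t) :
    ∃ (c : ℝ) (X : Set ℂ), IT P s t x0 c X ∧ ↑V ⊆ X ∧ c ≤ len E := by
  classical
  let Q : Finset ℂ → Prop := fun W => x0 ∈ W ∧ Conn E W ∧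
    ∀ (loc : ℕ → ℂ) (c : ℂ → ℝ) (X : ℂ → Set ℂ), (∀ i, loc i ∈ W) →
      (∀ u ∈ W, BL P u {i | s ≤ i ∧ i < t ∧ loc i = u} (c u) (X u)) → Planar loc E W x0 s t →
      ∃ (c' : ℝ) (X' : Set ℂ), BL P x0 (Ico s t) c' X' ∧ (∀ u ∈ W, X u ⊆ X') ∧
        c' ≤ ∑ u ∈ W, c u + len (E.filter fun e => e.1 ∈ W ∧ e.2 ∈ W)
  have base : Q {x0} := by
    refine ⟨Finset.mem_singleton_self _, conn_single _ _, fun loc c X h1 h2 _ => ?_⟩
    refine ⟨c x0, X x0, (h2 x0 (Finset.mem_singleton_self _)).cast ?_ rfl rfl, fun u hu => ?_, ?_⟩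
    · ext i
      simp [Finset.mem_singleton.1 (h1 i)]
    · rw [Finset.mem_singleton.1 hu]
    · rw [Finset.sum_singleton]; linarith [len_nonneg (E.filter fun e => e.1 ∈ ({x0} : Finset ℂ) ∧
        e.2 ∈ ({x0} : Finset ℂ))]
  have step : ∀ W p u, Q W → p ∈ W → u ∉ W → ((u, p) ∈ E ∨ (p, u) ∈ E) → Q (insert u W) := by
    rintro W p u ⟨q1, q2, q3⟩ hp hu he
    have grow : ∀ W1 : Finset ℂ, Conn E W1 → p ∈ W1 → Conn E (insert u W1) := fun W1 k hp1 =>
      k.grow subset_rfl (Finset.subset_insert _ _) fun b hb hb' =>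
        ⟨p, hp1, by rw [(Finset.mem_insert.1 hb).resolve_right hb']; exact he⟩
    have pu : p ≠ u := fun h => hu (h ▸ hp)
    refine ⟨Finset.mem_insert_of_mem q1, grow W q2 hp, fun loc c X h1 h2 h3 => ?_⟩
    have hJ := eq_Ico (J := {i | s ≤ i ∧ i < t ∧ loc i = u}) (t := t) (fun i hi => hi.2.1)
      fun a b c hab hbc ha hc => ⟨ha.1.trans hab.le, hbc.trans hc.2.1, Finset.mem_singleton.1
        (h3 {u} W (Finset.disjoint_singleton_left.2 hu) (by simp) (conn_single _ _) q2 q1 a b c
          ha.1 hab hbc hc.2.1 (by simp [ha.2.2]) (by simp [hc.2.2]))⟩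
    have tr := (h2 p (Finset.mem_insert_of_mem hp)).transfer (h2 u (Finset.mem_insert_self _ _))
      (Set.disjoint_left.2 fun i h h' => pu (h.2.2.symm.trans h'.2.2)) hJ
    obtain ⟨c', X', k1, k2, k3⟩ := q3 (fun i => if loc i = u then p else loc i)
      (Function.update c p (c p + (c u + dist u p))) (Function.update X p (X p ∪ X u))
      (fun i => by
        split_ifs with h
        · exact hp
        · exact (Finset.mem_insert.1 (h1 i)).resolve_left h)
      (fun v hv => by
        have vu : v ≠ u := fun h => hu (h ▸ hv)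
        by_cases hvp : v = p
        · subst hvp
          rw [Function.update_self, Function.update_self]
          refine tr.cast ?_ rfl rfl
          ext i
          by_cases h : loc i = u <;> simp [h, vu.symm]
        · rw [Function.update_of_ne hvp, Function.update_of_ne hvp]
          refine (h2 v (Finset.mem_insert_of_mem hv)).cast ?_ rfl rfl
          ext i
          by_cases h : loc i = u
          · simp [h, vu.symm, Ne.symm hvp]
          · simp [h])
      (fun W1 W2 hd hW k1 k2 hx2 a b c ha hab hbc hc => by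
        have u1 : u ∉ W1 := fun h => hu ((hW u).2 (Or.inl h))
        have u2 : u ∉ W2 := fun h => hu ((hW u).2 (Or.inr h))
        rcases (hW p).1 hp with hp1 | hp2
        · have e : ∀ i, (if loc i = u then p else loc i) ∈ W1 ↔ loc i ∈ insert u W1 := fun i => by
            by_cases h : loc i = u <;> simp [h, hp1]
          simp only [e]
          exact h3 (insert u W1) W2 (Finset.disjoint_insert_left.2 ⟨u2, hd⟩)
            (fun z => by simp only [Finset.mem_insert, hW z, or_assoc]) (grow W1 k1 hp1) k2 hx2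
            a b c ha hab hbc hc
        · have np : p ∉ W1 := fun h => Finset.disjoint_left.1 hd h hp2
          have e : ∀ i, (if loc i = u then p else loc i) ∈ W1 ↔ loc i ∈ W1 := fun i => by
            by_cases h : loc i = u <;> simp [h, np, u1]
          simp only [e]
          exact h3 W1 (insert u W2) (Finset.disjoint_insert_right.2 ⟨u1, hd⟩)
            (fun z => by simp only [Finset.mem_insert, hW z, or_left_comm]) k1 (grow W2 k2 hp2)
            (Finset.mem_insert_of_mem hx2) a b c ha hab hbc hc)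
    have kp := k2 p hp
    rw [Function.update_self] at kp
    refine ⟨c', X', k1, fun v hv => ?_, k3.trans ?_⟩
    · rcases Finset.mem_insert.1 hv with rfl | hv
      · exact subset_union_right.trans kp
      · by_cases hvp : v = p
        · exact hvp ▸ subset_union_left.trans kp
        · simpa only [Function.update_of_ne hvp] using k2 v hv
    · rw [Finset.sum_update_of_mem hp, Finset.sum_insert hu, ← Finset.add_sum_erase W c hp,
        Finset.sdiff_singleton_eq_erase]
      obtain ⟨e, he1, he2, he3, he4⟩ : ∃ e ∈ E, dist e.1 e.2 = dist u p ∧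
          (e.1 ∈ insert u W ∧ e.2 ∈ insert u W) ∧ ¬ (e.1 ∈ W ∧ e.2 ∈ W) := by
        rcases he with he | he
        · exact ⟨_, he, rfl, by simp [hp], fun h => hu h.1⟩
        · exact ⟨_, he, dist_comm _ _, by simp [hp], fun h => hu h.2⟩
      have l1 : len (insert e (E.filter fun e => e.1 ∈ W ∧ e.2 ∈ W)) ≤
          len (E.filter fun e => e.1 ∈ insert u W ∧ e.2 ∈ insert u W) :=
        len_mono (Finset.insert_subset (Finset.mem_filter.2 ⟨he1, he3⟩) fun f hf =>
          Finset.mem_filter.2 ⟨(Finset.mem_filter.1 hf).1,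
            Finset.mem_insert_of_mem (Finset.mem_filter.1 hf).2.1,
            Finset.mem_insert_of_mem (Finset.mem_filter.1 hf).2.2⟩)
      have l2 : len (insert e (E.filter fun e => e.1 ∈ W ∧ e.2 ∈ W)) =
          dist e.1 e.2 + len (E.filter fun e => e.1 ∈ W ∧ e.2 ∈ W) :=
        Finset.sum_insert fun h => he4 (Finset.mem_filter.1 h).2
      linarith
  obtain ⟨W, hW, hmax⟩ := (V.powerset.filter Q).exists_max_image Finset.card
    ⟨{x0}, Finset.mem_filter.2 ⟨by simpa using hx, base⟩⟩
  obtain ⟨hWV, hQ⟩ := Finset.mem_filter.1 hW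
  rw [Finset.mem_powerset] at hWV
  have closed : ∀ p u, p ∈ W → u ∈ V → ((u, p) ∈ E ∨ (p, u) ∈ E) → u ∈ W := by
    intro p u hp hu he
    by_contra hn
    have := hmax (insert u W) (Finset.mem_filter.2 ⟨Finset.mem_powerset.2
      (Finset.insert_subset hu hWV), step W p u hQ hp hn he⟩)
    rw [Finset.card_insert_of_notMem hn] at this
    omega
  have all : ∀ a b, Relation.EqvGen (fun u v : ℂ => (u, v) ∈ E ∧ u ∈ V ∧ v ∈ V) a b →
      (a ∈ W ↔ b ∈ W) := by
    intro a b h
    induction h with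
    | rel u v h => exact ⟨fun k => closed u v k h.2.2 (Or.inr h.1),
        fun k => closed v u k h.2.1 (Or.inl h.1)⟩
    | refl => rfl
    | symm _ _ _ ih => exact ih.symm
    | trans _ _ _ _ _ ih1 ih2 => exact ih1.trans ih2
  have eq : W = V := Finset.Subset.antisymm hWV fun v hv => (all _ _ (hc x0 hx v hv)).1 hQ.1
  subst eq
  have lv : ∀ u : ℂ, ∃ X, BL P u {i | s ≤ i ∧ i < t ∧ P i = u} 0 X ∧ u ∈ X := fun u => by
    obtain ⟨X, h⟩ := BL.leaves (P := P) (x := u) ((Finset.Ico s t).filter fun i => P i = u)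
      fun i hi => (Finset.mem_filter.1 hi).2
    refine ⟨X ∪ {u}, (h.spur 0 {u} le_rfl (by simp)).cast ?_ (by simp) rfl, by simp⟩
    ext i
    simp [and_assoc]
  choose X hX1 hX2 using lv
  obtain ⟨c', X', k1, k2, k3⟩ := hQ.2.2 P (fun _ => 0) X hP (fun u _ => hX1 u) hpl
  refine ⟨c', X', BL.merge _ s t c' X' le_rfl hst k1, fun u hu => k2 u hu (hX2 u), k3.trans ?_⟩
  simpa using len_mono (Finset.filter_subset _ _)

end Pool.Agent.Lib.MP_4b56aa_gt.Red
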